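import Mathlib

set_option autoImplicit false

namespace Pool.Agent.H.MP_48d627_an

open Filter Topology Metric Set Real Complex MeasureTheory

lemma expi (C : ℝ) : IntegrableOn (fun t : ℝ => C * Real.exp (-t)) (Ioi 0) :=
  (integrableOn_exp_neg_Ioi 0).const_mul C

lemma par {f : ℂ → ℂ} {e s0 : ℂ} {k : ℝ → ℂ} {r C : ℝ} (hr : 0 < r) (hk : ContinuousOn k (Ici 0))
    (hd : ∀ s ∈ ball s0 r, ∀ t : ℝ, 0 ≤ t → DifferentiableAt ℂ f (s + t * e))
    (hb : ∀ s ∈ ball s0 r, ∀ t : ℝ, 0 ≤ t → ‖f (s + t * e) * k t‖ ≤ C * Real.exp (-t)) :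
    IntegrableOn (fun t : ℝ => deriv f (s0 + t * e) * k t) (Ioi 0) ∧
    HasDerivAt (fun s => ∫ t in Ioi (0 : ℝ), f (s + t * e) * k t)
      (∫ t in Ioi (0 : ℝ), deriv f (s0 + t * e) * k t) s0 := by
  have cm : ∀ s ∈ ball s0 r, AEStronglyMeasurable (fun t : ℝ => f (s + t * e) * k t)
      (volume.restrict (Ioi 0)) := fun s hs => by
    refine ContinuousOn.aestronglyMeasurable (fun t ht => ?_) measurableSet_Ioi
    have h1 : ContinuousAt (fun t : ℝ => s + t * e) t := by fun_prop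
    exact (ContinuousAt.comp (f := fun t : ℝ => s + t * e)
      (hd s hs t (le_of_lt ht)).continuousAt h1).continuousWithinAt.mul
      ((hk t (Ioi_subset_Ici_self ht)).mono Ioi_subset_Ici_self)
  have sub : ∀ s ∈ ball s0 (r / 2), ∀ t : ℝ, ∀ z ∈ closedBall (s + t * e) (r / 4),
      z - t * e ∈ ball s0 r := fun s hs t z hz => by
    rw [mem_ball, dist_eq_norm] at hs ⊢
    rw [mem_closedBall, dist_eq_norm] at hz
    have := norm_add_le (z - (s + t * e)) (s - s0)
    rw [show z - (s + t * e) + (s - s0) = z - t * e - s0 by ring] at this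
    linarith
  refine hasDerivAt_integral_of_dominated_loc_of_deriv_le (s := ball s0 (r / 2))
    (F := fun s (t : ℝ) => f (s + t * e) * k t) (F' := fun s (t : ℝ) => deriv f (s + t * e) * k t)
    (bound := fun t => C / (r / 4) * Real.exp (-t))
    (ball_mem_nhds _ (half_pos hr)) (eventually_of_mem (ball_mem_nhds _ hr) cm) ?_ ?_ ?_ (expi _) ?_
  · refine (expi C).mono' (cm s0 (mem_ball_self hr)) ?_
    filter_upwards [ae_restrict_mem measurableSet_Ioi] with t ht
    exact hb s0 (mem_ball_self hr) t (le_of_lt ht)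
  · exact (((measurable_deriv f).comp (by fun_prop)).aestronglyMeasurable).mul
      ((hk.mono Ioi_subset_Ici_self).aestronglyMeasurable measurableSet_Ioi)
  · filter_upwards [ae_restrict_mem measurableSet_Ioi] with t ht s hs
    have h1 : DifferentiableOn ℂ (fun z => f z * k t) (closedBall (s + t * e) (r / 4)) :=
      fun z hz => by
        have := hd _ (sub s hs t z hz) t (le_of_lt ht)
        rw [sub_add_cancel] at this
        exact (this.mul_const _).differentiableWithinAt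
    have h2 := norm_deriv_le_of_forall_mem_sphere_norm_le (by positivity : 0 < r / 4)
      (h1.mono closure_ball_subset_closedBall).diffContOnCl (C := C * Real.exp (-t)) fun z hz => by
        have := hb _ (sub s hs t z (sphere_subset_closedBall hz)) t (le_of_lt ht)
        rwa [sub_add_cancel] at this
    rw [deriv_mul_const_field] at h2
    exact h2.trans_eq (by ring)
  · filter_upwards [ae_restrict_mem measurableSet_Ioi] with t ht s hs
    exact ((hd s (ball_subset_ball (by linarith) hs) t (le_of_lt ht)).hasDerivAt.comp_add_const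
      s _).mul_const _

lemma ray {f : ℂ → ℂ} {e s0 : ℂ} {r C : ℝ} (hr : 0 < r) (he : e ≠ 0)
    (hd : ∀ s ∈ ball s0 r, ∀ t : ℝ, 0 ≤ t → DifferentiableAt ℂ f (s + t * e))
    (hb : ∀ s ∈ ball s0 r, ∀ t : ℝ, 0 ≤ t → ‖f (s + t * e) * e‖ ≤ C * Real.exp (-t)) :
    HasDerivAt (fun s => ∫ t in Ioi (0 : ℝ), f (s + t * e) * e) (-f s0) s0 := by
  obtain ⟨h1, h2⟩ := par (k := fun _ => e) hr continuousOn_const hd hb
  have h3 : Tendsto (fun t : ℝ => f (s0 + t * e) * e) atTop (𝓝 0) := by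
    have := tendsto_exp_neg_atTop_nhds_zero.const_mul C
    rw [mul_zero] at this
    refine squeeze_zero_norm' ?_ this
    filter_upwards [eventually_ge_atTop 0] with t ht
    exact hb s0 (mem_ball_self hr) t ht
  have h4 := h3.mul_const e⁻¹
  simp only [mul_inv_cancel_right₀ he, zero_mul] at h4
  have h5 := integral_Ioi_of_hasDerivAt_of_tendsto' (f := fun t : ℝ => f (s0 + t * e))
    (fun t ht => ?_) h1 h4
  · rw [h5] at h2
    simpa using h2
  · have h6 : HasDerivAt (fun t : ℂ => s0 + t * e) e t := by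
      simpa using ((hasDerivAt_id (t : ℂ)).mul_const e).const_add s0
    exact ((hd s0 (mem_ball_self hr) t ht).hasDerivAt.comp (t : ℂ) h6).comp_ofReal

noncomputable def q (ε s : ℂ) : ℂ := Complex.exp (2 * π * I * ε * s)

noncomputable def kk (ε s : ℂ) : ℂ := q ε s / (1 - q ε s)

lemma q_norm (ε : ℝ) (s : ℂ) : ‖q ε s‖ = Real.exp (-(2 * π * (ε * s.im))) := by
  rw [q, Complex.norm_exp]
  congr 1
  simp
  ring

lemma low {ε : ℝ} (hε : ε ^ 2 = 1) {s0 : ℂ} (h0 : 0 ≤ ε * s0.im) (h1 : q ε s0 ≠ 1) :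
    ∃ r > 0, r ≤ 1 ∧ ∃ c > 0, ∀ s ∈ ball s0 r, ∀ t : ℝ, 0 ≤ t →
      c ≤ ‖1 - q ε (s + t * (1 + ε * I))‖ ∧ ‖q ε (s + t * (1 + ε * I))‖ ≤
        Real.exp 7 * Real.exp (-(6 * t)) := by
  have c1 : ContinuousAt (fun s => ‖1 - q ε s‖) s0 := by
    unfold q
    fun_prop
  have p : 0 < ‖1 - q ε s0‖ := norm_pos_iff.2 (sub_ne_zero.2 h1.symm)
  obtain ⟨ρ, r0, hρ⟩ := Metric.eventually_nhds_iff.1 (c1.eventually (lt_mem_nhds (half_lt_self p)))
  have a1 : |ε| = 1 := by rw [← sq_eq_sq₀ (abs_nonneg _) zero_le_one, sq_abs, hε, one_pow]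
  have x1 : Real.exp (-(ρ / 8)) < 1 := by simpa using r0
  refine ⟨min (ρ / 8) 1, by positivity, min_le_right _ _,
    min (‖1 - q ε s0‖ / 2) (1 - Real.exp (-(ρ / 8))), lt_min (half_pos p) (sub_pos.2 x1),
    fun s hs t ht => ?_⟩
  rw [mem_ball, dist_eq_norm, lt_min_iff] at hs
  have i1 : ε * (s + t * (1 + ε * I)).im = ε * s0.im + ε * (s - s0).im + t := by
    simp
    linear_combination t * hε
  have i2 : |ε * (s - s0).im| ≤ ‖s - s0‖ := by
    rw [abs_mul, a1, one_mul]
    exact abs_im_le_norm _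
  have i3 := neg_abs_le (ε * (s - s0).im)
  have p3 := pi_gt_three
  have p4 := pi_lt_d2
  constructor
  · rcases le_or_gt t (ρ / 4) with h | h
    · refine (min_le_left _ _).trans (hρ ?_).le
      have n1 : ‖(1 + ε * I : ℂ)‖ ≤ 2 := (norm_add_le _ _).trans (by simp [a1]; norm_num)
      rw [dist_eq_norm, add_sub_right_comm]
      refine (norm_add_le _ _).trans_lt ?_
      rw [norm_mul, norm_real, Real.norm_of_nonneg ht]
      nlinarith [hs.1]
    · refine (min_le_right _ _).trans (le_trans ?_ (norm_sub_norm_le _ _))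
      rw [norm_one, q_norm, i1]
      gcongr
      nlinarith [hs.1]
  · rw [q_norm, i1, ← Real.exp_add]
    gcongr
    nlinarith [hs.2, mul_nonneg (sub_pos.2 p3).le h0, mul_nonneg (sub_pos.2 p3).le ht]

end Pool.Agent.H.MP_48d627_an
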