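import Pool.Agent.H.MP_48d627_an.A

set_option autoImplicit false

namespace Pool.Agent.H.MP_48d627_an

open Filter Topology Metric Set Real Complex MeasureTheory

def Om : Set ℂ := {w | |w.im| < w.re}

lemma om_open : IsOpen Om := isOpen_lt (by fun_prop) (by fun_prop)

lemma om_iff {w : ℂ} : w ∈ Om ↔ w.im < w.re ∧ -w.re < w.im := by
  rw [Om, mem_ofPred_eq, abs_lt, and_comm]

lemma om_conv : Convex ℝ Om := fun x hx y hy a b ha hb hab => by
  rw [om_iff] at hx hy ⊢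
  simp only [add_im, add_re, smul_im, smul_re, smul_eq_mul]
  rcases ha.eq_or_lt with rfl | h
  · rw [zero_add] at hab
    subst hab
    simpa using hy
  · constructor
    · nlinarith [mul_pos h (sub_pos.2 hx.1), mul_nonneg hb (sub_pos.2 hy.1).le]
    · nlinarith [mul_pos h (sub_pos.2 hx.2), mul_nonneg hb (sub_pos.2 hy.2).le]

lemma om_ray {ε : ℝ} (hε : ε ^ 2 = 1) {u : ℂ} (hu : u ∈ Om) {t : ℝ} (ht : 0 ≤ t) :
    u + t * (1 + ε * I) ∈ Om := by
  rw [om_iff] at hu ⊢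
  rcases sq_eq_one_iff.1 hε with rfl | rfl <;> simp <;>
    constructor <;> linarith [hu.1, hu.2]

lemma om_add {u : ℂ} (hu : u ∈ Om) {t : ℝ} (ht : 0 ≤ t) : u + t ∈ Om := by
  rw [om_iff] at hu ⊢
  simp
  constructor <;> linarith [hu.1, hu.2]

lemma om_ball {u z : ℂ} (hu : u ∈ Om) {t : ℝ} (hz : ‖z‖ ≤ t / 2) : u + t + z ∈ Om := by
  rw [om_iff] at hu ⊢
  have h1 := abs_le.1 ((abs_re_le_norm z).trans hz)
  have h2 := abs_le.1 ((abs_im_le_norm z).trans hz)
  simp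
  constructor <;> linarith [hu.1, hu.2, h1.1, h1.2, h2.1, h2.2]

def Dom (H : ℂ → ℂ) (K : ℂ → ℝ) : Prop :=
  ∀ u ∈ Om, ∀ w ∈ Om, ‖H u‖ ≤ K w * Real.exp (‖u - w‖ / 2 + 2 * (u - w).re)

variable {H : ℂ → ℂ} {K : ℂ → ℝ} {ε : ℝ}

lemma Dom.nn (hK : Dom H K) {w : ℂ} (hw : w ∈ Om) : 0 ≤ K w := by
  have := hK w hw w hw
  simp at this
  exact (norm_nonneg _).trans this

lemma e_le (hε : ε ^ 2 = 1) : ‖(1 + ε * I : ℂ)‖ ≤ 2 := by
  have a1 : |ε| = 1 := by rw [← sq_eq_sq₀ (abs_nonneg _) zero_le_one, sq_abs, hε, one_pow]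
  exact (norm_add_le _ _).trans (by simp [a1]; norm_num)

lemma bd (hε : ε ^ 2 = 1) {s0 : ℂ} (h0 : 0 ≤ ε * s0.im) (h1 : q ε s0 ≠ 1) :
    ∃ r > 0, r ≤ 1 ∧ ∃ D, ∀ s ∈ ball s0 r, ∀ t : ℝ, 0 ≤ t → q ε (s + t * (1 + ε * I)) ≠ 1 ∧
      ∀ H K, Dom H K → ∀ w ∈ Om, ∀ u ∈ Om, ‖u - w‖ ≤ 1 →
        ‖H (u + t * (1 + ε * I)) * (kk ε (s + t * (1 + ε * I)) * (1 + ε * I))‖ ≤
          K w * D * Real.exp (-t) := by
  obtain ⟨r, r0, r1, c, c0, h⟩ := low hε h0 h1
  refine ⟨r, r0, r1, Real.exp (5 / 2) * (Real.exp 7 / c * 2), fun s hs t ht => ⟨fun e => ?_,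
    fun H K hK w hw u hu huw => ?_⟩⟩
  · have := (h s hs t ht).1
    rw [e, sub_self, norm_zero] at this
    linarith
  obtain ⟨a, b⟩ := h s hs t ht
  have k0 := hK.nn hw
  have n1 : ‖u + t * (1 + ε * I) - w‖ ≤ 1 + 2 * t := by
    rw [add_sub_right_comm]
    refine (norm_add_le _ _).trans ?_
    rw [norm_mul, norm_real, Real.norm_of_nonneg ht]
    nlinarith [e_le hε]
  have n2 : (u + t * (1 + ε * I) - w).re ≤ 1 + t := by
    have := (re_le_norm (u - w)).trans huw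
    simp at this ⊢
    linarith
  have n3 : ‖H (u + t * (1 + ε * I))‖ ≤ K w * (Real.exp (5 / 2) * Real.exp (3 * t)) := by
    refine (hK _ (om_ray hε hu ht) w hw).trans ?_
    rw [← Real.exp_add]
    exact mul_le_mul_of_nonneg_left (Real.exp_le_exp.2 (by linarith)) k0
  have n4 : Real.exp (3 * t) * Real.exp (-(6 * t)) ≤ Real.exp (-t) := by
    rw [← Real.exp_add]
    gcongr
    linarith
  rw [norm_mul, norm_mul, kk, norm_div]
  calc _ ≤ K w * (Real.exp (5 / 2) * Real.exp (3 * t)) *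
        (Real.exp 7 * Real.exp (-(6 * t)) / c * 2) := by
        gcongr
        exact e_le hε
    _ = K w * (Real.exp (5 / 2) * (Real.exp 7 / c * 2)) *
        (Real.exp (3 * t) * Real.exp (-(6 * t))) := by ring
    _ ≤ _ := by gcongr

lemma kk_diff {s : ℂ} (h : q ε s ≠ 1) : DifferentiableAt ℂ (kk ε) s := by
  have : Differentiable ℂ (q ε) := by
    unfold q
    fun_prop
  exact (this s).div ((this s).const_sub 1) (sub_ne_zero.2 h.symm)

noncomputable def J (ε : ℝ) (H : ℂ → ℂ) (u : ℂ) : ℂ := ∫ t in Ioi (0 : ℝ),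
  H (u + t * (1 + ε * I)) * (kk ε (1 / 2 + t * (1 + ε * I)) * (1 + ε * I))

lemma q_ne (hε : ε ^ 2 = 1) {s : ℂ} (h0 : s ≠ 0) (h1 : ‖s‖ < 1) : q ε s ≠ 1 := fun h => by
  obtain ⟨n, hn⟩ := Complex.exp_eq_one_iff.1 h
  have h2 : (ε : ℂ) * s = n :=
    mul_left_cancel₀ two_pi_I_ne_zero (by linear_combination hn)
  have a1 : |ε| = 1 := by rw [← sq_eq_sq₀ (abs_nonneg _) zero_le_one, sq_abs, hε, one_pow]
  have h3 := congrArg norm h2
  rw [norm_mul, norm_real, Real.norm_eq_abs, a1, one_mul, norm_intCast] at h3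
  rw [h3] at h1
  have h4 : n = 0 := Int.abs_lt_one_iff.1 (by exact_mod_cast h1)
  rw [h4] at h3
  exact h0 (by simpa using h3)

lemma J_main (hε : ε ^ 2 = 1) : ∃ D, ∀ H K, DifferentiableOn ℂ H Om → Dom H K →
    ∀ u ∈ Om, DifferentiableAt ℂ (J ε H) u ∧ ‖J ε H u‖ ≤ K u * D := by
  obtain ⟨r, r0, -, D, h⟩ := bd hε (s0 := 1 / 2) (by simp) (q_ne hε (by norm_num) (by norm_num))
  refine ⟨D, fun H K hH hK u hu => ⟨?_, ?_⟩⟩
  · obtain ⟨ρ, p0, hρ⟩ := Metric.isOpen_iff.1 om_open u hu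
    refine (par (r := min ρ 1) (C := K u * D) (by positivity) (fun t ht => ?_) (fun s hs t ht => ?_)
      fun s hs t ht => ?_).2.differentiableAt
    · have h1 : ContinuousAt (fun t : ℝ => (1 / 2 : ℂ) + t * (1 + ε * I)) t := by fun_prop
      exact ((ContinuousAt.comp (f := fun t : ℝ => (1 / 2 : ℂ) + t * (1 + ε * I))
        (kk_diff (h _ (mem_ball_self r0) t ht).1).continuousAt h1).mul
        continuousAt_const).continuousWithinAt
    · exact hH.differentiableAt (om_open.mem_nhds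
        (om_ray hε (hρ (ball_subset_ball (min_le_left _ _) hs)) ht))
    · exact (h _ (mem_ball_self r0) t ht).2 H K hK u hu s
        (hρ (ball_subset_ball (min_le_left _ _) hs))
        (le_of_lt (mem_ball_iff_norm.1 (ball_subset_ball (min_le_right _ _) hs)))
  · refine (norm_integral_le_of_norm_le (expi (K u * D)) ?_).trans_eq ?_
    · filter_upwards [ae_restrict_mem measurableSet_Ioi] with t ht
      exact (h _ (mem_ball_self r0) t (le_of_lt ht)).2 H K hK u hu u hu (by simp)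
    · rw [integral_const_mul, integral_exp_neg_Ioi_zero, mul_one]

noncomputable def Ps (ε : ℝ) (H : ℂ → ℂ) (c s : ℂ) : ℂ := ∫ t in Ioi (0 : ℝ),
  H (c + (s + t * (1 + ε * I))) * kk ε (s + t * (1 + ε * I)) * (1 + ε * I)

lemma Ps_der (hε : ε ^ 2 = 1) (hH : DifferentiableOn ℂ H Om) (hK : Dom H K) {c s0 : ℂ}
    (hu : c + s0 ∈ Om) (h0 : 0 ≤ ε * s0.im) (h1 : q ε s0 ≠ 1) :
    HasDerivAt (Ps ε H c) (-(H (c + s0) * kk ε s0)) s0 := by
  obtain ⟨r, r0, r1, D, h⟩ := bd hε h0 h1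
  obtain ⟨ρ, p0, hρ⟩ := Metric.isOpen_iff.1 om_open _ hu
  have m : ∀ s ∈ ball s0 (min ρ r), c + s ∈ Om := fun s hs => hρ (by
    simpa using ball_subset_ball (min_le_left _ _) hs)
  refine ray (f := fun s => H (c + s) * kk ε s) (r := min ρ r) (C := K (c + s0) * D)
    (by positivity) (fun e => by simpa using congrArg re e) (fun s hs t ht => ?_) fun s hs t ht => ?_
  · refine DifferentiableAt.mul (DifferentiableAt.comp _ (g := H) ?_ (by fun_prop))
      (kk_diff (h s (ball_subset_ball (min_le_right _ _) hs) t ht).1)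
    rw [← add_assoc]
    exact hH.differentiableAt (om_open.mem_nhds (om_ray hε (m s hs) ht))
  · rw [mul_assoc, ← add_assoc]
    refine (h s (ball_subset_ball (min_le_right _ _) hs) t ht).2 H K hK _ hu _ (m s hs) ?_
    rw [add_sub_add_left_eq_sub]
    exact (mem_ball_iff_norm.1 (ball_subset_ball (min_le_right _ _) hs)).le.trans r1

lemma Ps_p (c : ℂ) : Ps ε H c (1 / 2) = J ε H (c + 1 / 2) := by
  simp only [Ps, J, mul_assoc, add_assoc]

lemma Ps_m (hε : ε ^ 2 = 1) (c : ℂ) : Ps ε H c (-(1 / 2)) = J ε H (c + -(1 / 2)) := by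
  have : ∀ s, kk ε (-(1 / 2) + s) = kk ε (1 / 2 + s) := fun s => by
    have : q ε (1 / 2 + s) = q ε (-(1 / 2) + s) := by
      rw [q, q, Complex.exp_eq_exp_iff_exists_int]
      rcases sq_eq_one_iff.1 hε with rfl | rfl
      · exact ⟨1, by push_cast; ring⟩
      · exact ⟨-1, by push_cast; ring⟩
    rw [kk, kk, this]
  simp only [Ps, J, mul_assoc, add_assoc, this]

end Pool.Agent.H.MP_48d627_an
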