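import Pool.Agent.H.MP_48d627_an.B

set_option autoImplicit false

namespace Pool.Agent.H.MP_48d627_an

open Filter Topology Metric Set Real Complex MeasureTheory

variable {H Φ : ℂ → ℂ} {K : ℂ → ℝ} {c : ℂ}

lemma cau (hH : DifferentiableOn ℂ H Om) (hc : ∀ z : ℂ, ‖z‖ ≤ 1 / 2 → c + z ∈ Om) :
    ∮ s in C(0, 1 / 2), H (c + s) * kk (1 : ℝ) s = -H c := by
  have d1 : Differentiable ℂ (q (1 : ℝ)) := by
    unfold q
    fun_prop
  have q0 : q (1 : ℝ) 0 = 1 := by simp [q]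
  have d0 : dslope (q (1 : ℝ)) 0 0 = 2 * π * I := by
    rw [dslope_same]
    have := ((hasDerivAt_id (0 : ℂ)).const_mul (2 * π * I * (1 : ℝ))).cexp
    exact this.deriv.trans (by simp)
  have d2 : ∀ s : ℂ, s ≠ 0 → dslope (q (1 : ℝ)) 0 s = s⁻¹ * (q (1 : ℝ) s - 1) := fun s hs => by
    rw [dslope_of_ne _ hs, slope_def_module, q0, sub_zero, smul_eq_mul]
  have d3 : ∀ s ∈ closedBall (0 : ℂ) (1 / 2), dslope (q (1 : ℝ)) 0 s ≠ 0 := fun s hs => by
    rcases eq_or_ne s 0 with rfl | h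
    · rw [d0]
      exact two_pi_I_ne_zero
    · rw [d2 s h]
      exact mul_ne_zero (inv_ne_zero h) (sub_ne_zero.2 (q_ne (one_pow 2) h
        ((mem_closedBall_zero_iff.1 hs).trans_lt (by norm_num))))
  have d4 : DifferentiableOn ℂ (fun s => -(H (c + s) * q (1 : ℝ) s) / dslope (q (1 : ℝ)) 0 s)
      (closedBall 0 (1 / 2)) :=
    ((hH.comp (by fun_prop) fun s hs => hc s (mem_closedBall_zero_iff.1 hs)).mul
      d1.differentiableOn).neg.div ((differentiableOn_dslope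
        (closedBall_mem_nhds _ (by norm_num))).2 d1.differentiableOn) d3
  have h := d4.circleIntegral_sub_inv_smul (mem_ball_self (by norm_num))
  rw [circleIntegral.integral_congr (by norm_num) (g := fun s => H (c + s) * kk (1 : ℝ) s)
    fun s hs => ?_] at h
  · rw [h, d0, q0, smul_eq_mul, mul_div_cancel₀ _ two_pi_I_ne_zero, add_zero, mul_one]
  · have h1 : ‖s‖ = 1 / 2 := by simpa using hs
    have h2 : s ≠ 0 := norm_pos_iff.1 (by rw [h1]; norm_num)
    have h3 := q_ne (one_pow 2) h2 (by rw [h1]; norm_num)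
    have h4 := sub_ne_zero.2 h3
    have h5 := sub_ne_zero.2 h3.symm
    beta_reduce
    rw [d2 s h2, kk, sub_zero, smul_eq_mul]
    field_simp
    ring

lemma kk_neg {s : ℂ} (h : q (1 : ℝ) s ≠ 1) : kk (1 : ℝ) s = -1 - kk (-1 : ℝ) s := by
  have h1 : q (-1 : ℝ) s = (q (1 : ℝ) s)⁻¹ := by
    rw [q, q, ← Complex.exp_neg]
    congr 1
    push_cast
    ring
  have h2 : q (1 : ℝ) s ≠ 0 := Complex.exp_ne_zero _
  have h4 := sub_ne_zero.2 h
  have h5 := sub_ne_zero.2 h.symm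
  rw [kk, kk, h1]
  field_simp
  ring

noncomputable def S0 (H Φ : ℂ → ℂ) (u : ℂ) : ℂ := Φ u - J 1 H u - J (-1) H u

lemma ident (hH : DifferentiableOn ℂ H Om) (hK : Dom H K) (hΦ : ∀ u ∈ Om, HasDerivAt Φ (H u) u)
    (hc : ∀ z : ℂ, ‖z‖ ≤ 1 / 2 → c + z ∈ Om) :
    H c = S0 H Φ (c + 1 / 2) - S0 H Φ (c + -(1 / 2)) := by
  have h := cau hH hc
  have n1 : ∀ t, ‖circleMap 0 (1 / 2) t‖ = 1 / 2 := fun t => by simp
  have n2 : ∀ (ε : ℝ), ε ^ 2 = 1 → ∀ t, q ε (circleMap 0 (1 / 2) t) ≠ 1 := fun ε hε t =>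
    q_ne hε (norm_pos_iff.1 (by rw [n1]; norm_num)) (by rw [n1]; norm_num)
  have n3 : ∀ t, (circleMap 0 (1 / 2) t).im = 1 / 2 * Real.sin t := fun t => by
    simp [circleMap, exp_ofReal_mul_I_im]
  have ci : CircleIntegrable (fun s => H (c + s) * kk (1 : ℝ) s) 0 (1 / 2) :=
    ContinuousOn.circleIntegrable (by norm_num) fun s hs => by
      have h1 : ‖s‖ = 1 / 2 := by simpa using hs
      exact ((DifferentiableAt.comp s (g := H) (hH.differentiableAt (om_open.mem_nhds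
        (hc s h1.le))) (by fun_prop)).mul (kk_diff (q_ne (one_pow 2)
          (norm_pos_iff.1 (by rw [h1]; norm_num))
          (by rw [h1]; norm_num)))).continuousAt.continuousWithinAt
  have i0 : π ∈ uIcc 0 (2 * π) := mem_uIcc_of_le pi_pos.le (by linarith [pi_pos])
  have i1 := ci.out.mono_set (uIcc_subset_uIcc_left i0)
  have i2 := ci.out.mono_set (uIcc_subset_uIcc_right i0)
  have e1 := intervalIntegral.integral_eq_sub_of_hasDerivAt
    (f := fun t => -Ps 1 H c (circleMap 0 (1 / 2) t)) (fun t ht => ?_) i1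
  have e2 := intervalIntegral.integral_eq_sub_of_hasDerivAt
    (f := fun t => Ps (-1) H c (circleMap 0 (1 / 2) t) - Φ (c + circleMap 0 (1 / 2) t))
    (fun t ht => ?_) i2
  · have v0 : circleMap 0 (1 / 2) 0 = 1 / 2 := by simp [circleMap]
    have v1 : circleMap 0 (1 / 2) π = -(1 / 2) := by simp [circleMap]
    have v2 : circleMap 0 (1 / 2) (2 * π) = 1 / 2 := by simp [circleMap]
    rw [circleIntegral, ← intervalIntegral.integral_add_adjacent_intervals i1 i2, e1, e2, v0, v1, v2,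
      Ps_p, Ps_p, Ps_m (by norm_num), Ps_m (by norm_num)] at h
    unfold S0
    linear_combination h
  · rw [uIcc_of_le (by linarith [pi_pos])] at ht
    have s1 : Real.sin t ≤ 0 := by
      rw [← Real.sin_sub_two_pi]
      exact sin_nonpos_of_nonpos_of_neg_pi_le (by linarith [ht.2]) (by linarith [ht.1])
    have a := (Ps_der (ε := -1) (by norm_num) hH hK (hc _ (n1 t).le) (by rw [n3]; linarith)
      (n2 _ (by norm_num) t)).scomp t (hasDerivAt_circleMap 0 (1 / 2) t)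
    have b := ((hΦ _ (hc _ (n1 t).le)).comp_const_add c _).scomp t (hasDerivAt_circleMap 0 (1 / 2) t)
    refine (a.sub b).congr_deriv ?_
    rw [deriv_circleMap, kk_neg (n2 _ (by norm_num) t)]
    simp only [smul_eq_mul]
    ring
  · rw [uIcc_of_le pi_pos.le] at ht
    have s1 := Real.sin_nonneg_of_nonneg_of_le_pi ht.1 ht.2
    have a := (Ps_der (ε := 1) (by norm_num) hH hK (hc _ (n1 t).le) (by rw [n3]; linarith)
      (n2 _ (by norm_num) t)).scomp t (hasDerivAt_circleMap 0 (1 / 2) t)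
    refine a.neg.congr_deriv ?_
    rw [deriv_circleMap]
    simp only [smul_eq_mul]
    ring

lemma prim (hK : Dom H K) (hΦ : ∀ u ∈ Om, HasDerivAt Φ (H u) u) {w : ℂ} (hw : w ∈ Om) :
    ‖Φ (w + (1 / 2 : ℝ)) - Φ (1 / 2 : ℝ)‖ ≤ K (w + (1 / 2 : ℝ)) * 2 := by
  have hb := om_add hw (show (0 : ℝ) ≤ 1 / 2 by norm_num)
  have k0 := hK.nn hb
  have m : ∀ s ∈ Icc (0 : ℝ) 1, w + (1 / 2 : ℝ) - s * w ∈ Om := fun s hs => by
    rw [om_iff] at hw ⊢
    simp
    constructor <;> nlinarith [hs.2, hw.1, hw.2]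
  have n : ‖w‖ ≤ 2 * w.re := (norm_le_abs_re_add_abs_im w).trans (by
    have : |w.im| < w.re := hw
    rw [abs_of_pos ((abs_nonneg _).trans_lt this)]
    linarith)
  have d : ∀ s ∈ Icc (0 : ℝ) 1, HasDerivAt
      (fun s : ℝ => Φ (w + (1 / 2 : ℝ) - s * w) - Φ (w + (1 / 2 : ℝ)))
      (H (w + (1 / 2 : ℝ) - s * w) * -w) s := fun s hs => by
    have h6 : HasDerivAt (fun t : ℂ => w + (1 / 2 : ℝ) - t * w) (-w) s := by
      simpa using ((hasDerivAt_id (s : ℂ)).mul_const w).const_sub (w + (1 / 2 : ℝ))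
    exact ((hΦ _ (m s hs)).comp (s : ℂ) h6).comp_ofReal.sub_const _
  have h := image_norm_le_of_norm_deriv_right_le_deriv_boundary
    (B := fun s => K (w + (1 / 2 : ℝ)) * 2 * (1 - Real.exp (-(‖w‖ / 2) * s)))
    (B' := fun s => K (w + (1 / 2 : ℝ)) * 2 * (‖w‖ / 2 * Real.exp (-(‖w‖ / 2) * s)))
    (fun s hs => (d s hs).continuousAt.continuousWithinAt)
    (fun s hs => (d s (Ico_subset_Icc_self hs)).hasDerivWithinAt) (by simp) (fun s => ?_)
    (fun s hs => ?_) (right_mem_Icc.2 zero_le_one)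
  · rw [norm_sub_rev, ofReal_one, one_mul, add_sub_cancel_left] at h
    refine h.trans (mul_le_of_le_one_right (by positivity) ?_)
    linarith [Real.exp_pos (-(‖w‖ / 2) * 1)]
  · refine ((((hasDerivAt_id s).const_mul (-(‖w‖ / 2))).exp.const_sub 1).const_mul _).congr_deriv ?_
    simp only [id]
    ring
  · have h1 := hK _ (m s (Ico_subset_Icc_self hs)) _ hb
    rw [sub_sub_cancel_left, norm_neg, norm_mul, norm_real, Real.norm_of_nonneg hs.1, neg_re,
      re_ofReal_mul] at h1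
    have h2 : Real.exp (s * ‖w‖ / 2 + 2 * -(s * w.re)) ≤ Real.exp (-(‖w‖ / 2) * s) :=
      Real.exp_le_exp.2 (by nlinarith [mul_le_mul_of_nonneg_left n hs.1])
    rw [norm_mul, norm_neg]
    nlinarith [mul_le_mul_of_nonneg_right (h1.trans (mul_le_mul_of_nonneg_left h2 k0)) (norm_nonneg w)]

lemma core (hH : DifferentiableOn ℂ H Om) (hK : Dom H K) :
    (∃ S : ℂ → ℂ, DifferentiableOn ℂ S Om ∧ (∀ w ∈ Om, S (w + 1) - S w = H (w + 1)) ∧
      ∃ C, ∀ w ∈ Om, ‖S w‖ ≤ K (w + (1 / 2 : ℝ)) * C) ∧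
    ((∀ w ∈ Om, H (w + 1) = H w) → ∃ a, ∀ w ∈ Om, H w = a) := by
  obtain ⟨Φ, hΦ⟩ := om_conv.exists_forall_hasDerivWithinAt hH
  replace hΦ := fun u hu => (hΦ u hu).hasDerivAt (om_open.mem_nhds hu)
  have m : ∀ w ∈ Om, w + (1 / 2 : ℝ) ∈ Om := fun w hw => om_add hw (by norm_num)
  have id : ∀ w ∈ Om, H (w + 1) = S0 H Φ (w + 1 + (1 / 2 : ℝ)) - S0 H Φ (w + (1 / 2 : ℝ)) :=
    fun w hw => by
      rw [ident hH hK hΦ (c := w + 1) fun z hz => by
        simpa using om_ball (t := 1) hw hz]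
      congr 2
      · simp
      · push_cast
        ring
  obtain ⟨D1, h1⟩ := J_main (ε := 1) (by norm_num)
  obtain ⟨D2, h2⟩ := J_main (ε := -1) (by norm_num)
  refine ⟨⟨fun w => S0 H Φ (w + (1 / 2 : ℝ)) - Φ (1 / 2 : ℝ), fun w hw => ?_, fun w hw => ?_,
    2 + D1 + D2, fun w hw => ?_⟩, fun hp => ?_⟩
  · exact (((((hΦ _ (m w hw)).differentiableAt.sub (h1 H K hH hK _ (m w hw)).1).sub
      (h2 H K hH hK _ (m w hw)).1).comp w (f := fun w : ℂ => w + (1 / 2 : ℝ))
        (by fun_prop)).sub_const _).differentiableWithinAt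
  · rw [id w hw]
    ring
  · beta_reduce
    rw [S0, sub_right_comm, sub_right_comm (Φ _)]
    refine (norm_sub_le _ _).trans ((add_le_add_left (norm_sub_le _ _) _).trans ?_)
    linarith [prim hK hΦ hw, (h1 H K hH hK _ (m w hw)).2, (h2 H K hH hK _ (m w hw)).2]
  · have jp : ∀ ε : ℝ, ε ^ 2 = 1 → ∀ u ∈ Om, J ε H (u + 1) = J ε H u := fun ε hε u hu =>
      setIntegral_congr_fun measurableSet_Ioi fun t ht => by
        rw [add_right_comm, hp _ (om_ray hε hu (le_of_lt ht))]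
    have dd : ∀ w ∈ Om, HasDerivAt (fun w => Φ (w + (1 / 2 : ℝ) + 1) - Φ (w + (1 / 2 : ℝ))) 0 w :=
      fun w hw => by
        have a := (hΦ _ (om_add (m w hw) zero_le_one)).comp_add_const
        have b := ((a.comp_add_const w _).sub ((hΦ _ (m w hw)).comp_add_const w _))
        rw [ofReal_one, hp _ (m w hw), sub_self] at b
        exact b
    refine ⟨Φ (1 + (1 / 2 : ℝ) + 1) - Φ (1 + (1 / 2 : ℝ)), fun w hw => ?_⟩
    rw [← hp w hw, id w hw, add_right_comm w, S0, S0, jp _ (by norm_num) _ (m w hw),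
      jp _ (by norm_num) _ (m w hw), ← om_open.is_const_of_deriv_eq_zero om_conv.isPreconnected
        (fun w hw => (dd w hw).differentiableAt.differentiableWithinAt)
        (fun w hw => (dd w hw).deriv) hw (by simp [Om])]
    ring

end Pool.Agent.H.MP_48d627_an
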