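import Pool.Agent.H.MP_48d627_an.C

set_option autoImplicit false

namespace Pool.Agent.H.MP_48d627_an

open Filter Topology Metric Set Real Complex MeasureTheory

variable {P F G : ℂ → ℂ}

lemma sch (hP : DifferentiableOn ℂ P Om) (h0 : ∀ w ∈ Om, 0 < (P w).re) {w : ℂ} (hw : w ∈ Om) :
    ‖deriv P (w + (4 : ℝ))‖ ≤ (P (w + (4 : ℝ))).re := by
  have hc := om_add hw (show (0 : ℝ) ≤ 4 by norm_num)
  have m : ∀ z ∈ ball (w + (4 : ℝ)) 2, z ∈ Om := fun z hz => by
    have := om_ball (t := 4) (z := z - (w + (4 : ℝ))) hw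
      ((mem_ball_iff_norm.1 hz).le.trans (by norm_num))
    rwa [add_sub_cancel] at this
  generalize w + (4 : ℝ) = c at hc m
  have p := h0 c hc
  have n : ∀ z ∈ ball c 2, P z + starRingEnd ℂ (P c) ≠ 0 := fun z hz e => by
    have := congrArg re e
    simp at this
    linarith [h0 z (m z hz)]
  have d := hP.mono m
  have h := norm_deriv_le_div_of_mapsTo_ball (f := fun z => (P z - P c) / (P z + starRingEnd ℂ (P c)))
    (R₂ := 1) ((d.sub_const _).div (d.add_const _) n) (fun z hz => ?_) two_pos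
  · have a := (hP.differentiableAt (om_open.mem_nhds hc)).hasDerivAt
    have b := ((a.sub_const (P c)).div (a.add_const (starRingEnd ℂ (P c)))
      (n c (mem_ball_self two_pos))).deriv
    have e : P c + starRingEnd ℂ (P c) = ((2 * (P c).re : ℝ) : ℂ) := add_conj _
    erw [b] at h
    rw [sub_self, zero_mul, sub_zero, sq, mul_div_mul_right _ _ (n c (mem_ball_self two_pos)), e,
      norm_div, norm_real, Real.norm_of_nonneg (by positivity), div_le_iff₀ (by positivity)] at h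
    linarith
  · rw [mem_closedBall, sub_self, zero_div, dist_zero_right, norm_div]
    refine div_le_one_of_le₀ (le_of_sq_le_sq ?_ (norm_nonneg _)) (norm_nonneg _)
    simp only [Complex.sq_norm, normSq_apply]
    simp
    nlinarith [mul_pos p (h0 z (m z hz))]

lemma harn (hP : DifferentiableOn ℂ P Om) (h0 : ∀ w ∈ Om, 0 < (P w).re) {u w : ℂ} (hu : u ∈ Om)
    (hw : w ∈ Om) : (P (u + (4 : ℝ))).re ≤ (P (w + (4 : ℝ))).re * Real.exp ‖u - w‖ := by
  have m : ∀ t ∈ Icc (0 : ℝ) 1, w + t * (u - w) ∈ Om := fun t ht => by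
    simpa using om_conv.add_smul_sub_mem hw hu ht
  have m4 : ∀ z ∈ Om, z + (4 : ℝ) ∈ Om := fun z hz => om_add hz (by norm_num)
  have h := norm_image_sub_le_of_norm_deriv_le_segment_01'
    (f := fun t : ℝ => Real.log (P (w + t * (u - w) + (4 : ℝ))).re)
    (f' := fun t : ℝ => (deriv P (w + t * (u - w) + (4 : ℝ)) * (u - w)).re /
      (P (w + t * (u - w) + (4 : ℝ))).re) (C := ‖u - w‖) (fun t ht => ?_) fun t ht => ?_
  · simp only [ofReal_one, ofReal_zero, one_mul, zero_mul, add_zero, add_sub_cancel] at h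
    have h1 := Real.exp_le_exp.2 (sub_le_iff_le_add'.1 ((le_abs_self _).trans h))
    rwa [Real.exp_add, Real.exp_log (h0 _ (m4 u hu)), Real.exp_log (h0 _ (m4 w hw))] at h1
  · have h6 : HasDerivAt (fun t : ℂ => w + t * (u - w) + (4 : ℝ)) (u - w) t := by
      simpa using (((hasDerivAt_id (t : ℂ)).mul_const (u - w)).const_add w).add_const ((4 : ℝ) : ℂ)
    have h7 := ((hP.differentiableAt (om_open.mem_nhds (m4 _ (m t ht)))).hasDerivAt.comp
      (t : ℂ) h6).real_of_complex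
    exact (h7.log (h0 _ (m4 _ (m t ht))).ne').hasDerivWithinAt
  · have p := h0 _ (m4 _ (m t (Ico_subset_Icc_self ht)))
    rw [norm_div, Real.norm_of_nonneg p.le, div_le_iff₀ p, mul_comm ‖u - w‖]
    refine (abs_re_le_norm _).trans ?_
    rw [norm_mul]
    exact mul_le_mul_of_nonneg_right (sch hP h0 (m t (Ico_subset_Icc_self ht))) (norm_nonneg _)

def Maj (U : Set ℂ) (F : ℂ → ℂ) : Prop := DifferentiableOn ℂ F U ∧
  ∃ P : ℂ → ℂ, DifferentiableOn ℂ P U ∧ ∀ w ∈ U, ‖F w‖ ^ 2 ≤ (P w).re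

lemma Maj.comp {U V : Set ℂ} (h : Maj V F) {g : ℂ → ℂ} (hg : DifferentiableOn ℂ g U)
    (hm : MapsTo g U V) : Maj U fun z => F (g z) := by
  obtain ⟨h1, P, h2, h3⟩ := h
  exact ⟨h1.comp hg hm, P ∘ g, h2.comp hg hm, fun w hw => h3 _ (hm hw)⟩

lemma Maj.lin {U : Set ℂ} (h : Maj U F) (k : Maj U G) (a : ℂ) :
    Maj U fun z => (F z - G z) * a := by
  obtain ⟨h1, P, h2, h3⟩ := h
  obtain ⟨k1, Q, k2, k3⟩ := k
  refine ⟨(h1.sub k1).mul_const _, fun z => ((2 * ‖a‖ ^ 2 : ℝ) : ℂ) * (P z + Q z),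
    (h2.add k2).const_mul _, fun w hw => ?_⟩
  rw [re_ofReal_mul, norm_mul, mul_pow, add_re]
  have h4 := pow_le_pow_left₀ (norm_nonneg _) (norm_sub_le (F w) (G w)) 2
  have h5 : ‖F w - G w‖ ^ 2 ≤ 2 * ((P w).re + (Q w).re) := by
    nlinarith [h3 w hw, k3 w hw, sq_nonneg (‖F w‖ - ‖G w‖)]
  nlinarith [mul_le_mul_of_nonneg_right h5 (sq_nonneg ‖a‖)]

lemma Maj.sh (h : Maj Om F) {t : ℝ} (ht : 0 ≤ t) : Maj Om fun z => F (z + t) :=
  h.comp (by fun_prop) fun _ hz => om_add hz ht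

lemma Maj.dom (h : Maj Om F) : ∃ P : ℂ → ℂ, DifferentiableOn ℂ P Om ∧ (∀ w ∈ Om, 0 < (P w).re) ∧
    Dom (fun u => Complex.exp (2 * u) * F (u + (4 : ℝ)))
      fun w => √(P (w + (4 : ℝ))).re * Real.exp (2 * w.re) := by
  obtain ⟨h1, P, h2, h3⟩ := h
  have p : ∀ w ∈ Om, 0 < (P w + 1).re := fun w hw => by
    rw [add_re, one_re]
    linarith [h3 w hw, sq_nonneg ‖F w‖]
  refine ⟨fun z => P z + 1, h2.add_const _, p, fun u hu w hw => ?_⟩
  have a := harn (h2.add_const 1) p hu hw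
  have b : ‖F (u + (4 : ℝ))‖ ≤ √(P (w + (4 : ℝ)) + 1).re * Real.exp (‖u - w‖ / 2) := by
    rw [Real.exp_half, ← Real.sqrt_mul (p _ (om_add hw (by norm_num))).le]
    refine Real.le_sqrt_of_sq_le (le_trans ?_ a)
    rw [add_re, one_re]
    linarith [h3 _ (om_add hu (show (0 : ℝ) ≤ 4 by norm_num))]
  beta_reduce
  rw [norm_mul, Complex.norm_exp, mul_assoc, ← Real.exp_add, show 2 * w.re + (‖u - w‖ / 2 +
    2 * (u - w).re) = ‖u - w‖ / 2 + (2 * u).re by simp; ring, Real.exp_add, ← mul_assoc, mul_comm]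
  exact mul_le_mul_of_nonneg_right b (Real.exp_pos _).le

lemma dH (h : Maj Om F) :
    DifferentiableOn ℂ (fun u => Complex.exp (2 * u) * F (u + (4 : ℝ))) Om :=
  DifferentiableOn.mul (by fun_prop) (h.sh (by norm_num)).1

lemma desc (n : ℕ) (h : Maj Om G) (hF : Maj Om F)
    (he : ∀ w ∈ Om, F (w + 1) - Complex.exp (-2) * F w = G (w + n)) :
    ∃ F, Maj Om F ∧ ∀ w ∈ Om, F (w + 1) - Complex.exp (-2) * F w = G w := by
  induction n generalizing G with
  | zero => exact ⟨F, hF, by simpa using he⟩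
  | succ n ih =>
    obtain ⟨F, h1, h2⟩ := ih (h.sh zero_le_one) fun w hw => by
      rw [he w hw, add_assoc]
      simp
    refine ⟨_, h1.lin h (Complex.exp (-2))⁻¹, fun w hw => ?_⟩
    have := h2 w hw
    have e := Complex.exp_ne_zero (-2)
    rw [ofReal_one] at this
    rw [← this]
    field_simp
    ring

lemma surj (h : Maj Om G) :
    ∃ F, Maj Om F ∧ ∀ w ∈ Om, F (w + 1) - Complex.exp (-2) * F w = G w := by
  obtain ⟨P, h1, h2, h3⟩ := h.dom
  obtain ⟨S, s1, s2, C, s3⟩ := (core (dH h) h3).1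
  refine desc 5 (F := fun w => Complex.exp (-2 * w) * S w) h ⟨DifferentiableOn.mul (by fun_prop) s1,
    fun w => (((Real.exp 1 * C) ^ 2 : ℝ) : ℂ) * P (w + (1 / 2 : ℝ) + (4 : ℝ)),
    (h1.comp (by fun_prop) fun w hw => om_add (om_add hw (by norm_num)) (by norm_num)).const_mul _,
    fun w hw => ?_⟩ fun w hw => ?_
  · have p := h2 _ (om_add (om_add hw (show (0 : ℝ) ≤ 1 / 2 by norm_num))
      (show (0 : ℝ) ≤ 4 by norm_num))
    rw [re_ofReal_mul, ← Real.sq_sqrt p.le, ← mul_pow]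
    refine pow_le_pow_left₀ (norm_nonneg _) ?_ 2
    rw [norm_mul, Complex.norm_exp]
    refine (mul_le_mul_of_nonneg_left (s3 w hw) (Real.exp_pos _).le).trans_eq ?_
    rw [show Real.exp 1 = Real.exp (-2 * w).re * Real.exp (2 * (w + (1 / 2 : ℝ)).re) by
      rw [← Real.exp_add]
      congr 1
      simp
      ring]
    ring
  · have := s2 w hw
    have e1 : Complex.exp (-2 * (w + 1)) = Complex.exp (-2) * Complex.exp (-2 * w) := by
      rw [← Complex.exp_add]
      congr 1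
      ring
    have e2 : Complex.exp (-2 * (w + 1)) * Complex.exp (2 * (w + 1)) = 1 := by
      rw [← Complex.exp_add]
      simp
    rw [show w + ((5 : ℕ) : ℂ) = w + 1 + (4 : ℝ) by push_cast; ring]
    beta_reduce at this ⊢
    linear_combination Complex.exp (-2 * (w + 1)) * this + S w * e1 + G (w + 1 + (4 : ℝ)) * e2

lemma kern (h : Maj Om F) (he : ∀ w ∈ Om, F (w + 1) = Complex.exp (-2) * F w) :
    ∃ a : ℂ, ∀ w ∈ Om, F w = a * Complex.exp (-2 * w) := by
  obtain ⟨P, h1, h2, h3⟩ := h.dom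
  obtain ⟨a, ha⟩ := (core (dH h) h3).2 fun w hw => by
    rw [add_right_comm, he _ (om_add hw (by norm_num)), ← mul_assoc, ← Complex.exp_add]
    congr 2
    ring
  have k : ∀ n : ℕ, ∀ w ∈ Om, F (w + n) = Complex.exp (-2) ^ n * F w := fun n w hw => by
    induction n with
    | zero => simp
    | succ n ih =>
      rw [Nat.cast_succ, ← add_assoc, he _ (by simpa using om_add hw n.cast_nonneg), ih]
      ring
  refine ⟨a / Complex.exp (-2) ^ 4, fun w hw => ?_⟩
  have e := Complex.exp_ne_zero (-2)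
  have e2 : Complex.exp (-2 * w) * Complex.exp (2 * w) = 1 := by
    rw [← Complex.exp_add]
    simp
  have := ha w hw
  beta_reduce at this
  rw [show ((4 : ℝ) : ℂ) = (4 : ℕ) by simp, k 4 w hw] at this
  rw [div_mul_eq_mul_div, eq_div_iff (pow_ne_zero _ e), ← this]
  linear_combination -F w * Complex.exp (-2) ^ 4 * e2

end Pool.Agent.H.MP_48d627_an
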