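import Pool.Agent.H.MP_48d627_an.D
import Pool.Agent.H.MP_ffb813_an.A

set_option autoImplicit false

namespace Pool.Agent.H.MP_48d627_an

open Filter Topology Metric Set Real Complex MeasureTheory
open Pool.Agent.H.MP_321233_an Pool.Agent.H.MP_4b0b35_an Pool.Agent.H.MP_ed6c6b_an
open Pool.Agent.H.MP_ffb813_an

def Bd (f : ℂ → ℂ) : Prop := ∃ M : ℝ, ∀ r : ℝ, 0 ≤ r → r < 1 →
  intervalIntegral (fun θ : ℝ => ‖f ((r : ℂ) * Complex.exp ((θ : ℂ) * Complex.I))‖ ^ 2)
    0 (2 * Real.pi) MeasureTheory.volume ≤ M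

variable {f : ℂ → ℂ} {z w : ℂ}

lemma hm1 (hf : DifferentiableOn ℂ f (ball 0 1)) (h : Bd f) : Maj (ball 0 1) f := by
  obtain ⟨M, h⟩ := h
  have s := sq_sum hf (M := M) fun r h0 h1 => by
    simpa only [circleMap, zero_add] using h r (by linarith) h1
  let a : L2 := ⟨co f, memℓp_gen (by simpa only [ENNReal.toReal_ofNat, Real.rpow_ofNat] using s)⟩
  refine ⟨hf, fun u => ((2 : ℝ) : ℂ) * inner ℂ a (cc a u), (cc_diff a).const_mul _, fun u hu => ?_⟩
  have hu' : ‖u‖ < 1 := by simpa using hu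
  have e : f u = G a u := (hasSum_taylorSeries_on_ball hf hu).unique
    ((ev_eq hu' a).congr_fun fun n => by
      change _ = co f n * u ^ n
      rw [co, sub_zero, smul_eq_mul, smul_eq_mul]
      ring)
  rw [re_ofReal_mul, e]
  exact maj a hu'

lemma hm2 (h : Maj (ball 0 1) f) : Bd f := by
  obtain ⟨h1, P, h2, h3⟩ := h
  refine ⟨2 * π * (P 0).re, fun r r0 r1 => ?_⟩
  have := circleAverage_mono (ci r0 r1 (h1.continuousOn.norm.pow 2)) (ci r0 r1 (cre h2))
    fun z hz => h3 z (by simpa using (sph r0 hz).trans_lt r1)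
  rw [mvp r0 r1 h2, circleAverage, smul_eq_mul, inv_mul_le_iff₀ two_pi_pos] at this
  simpa only [circleMap, zero_add, Pi.pow_apply] using this

noncomputable def sg (z : ℂ) : ℂ := ((1 + z) / (1 - z)) ^ (2⁻¹ : ℂ)

noncomputable def ps (w : ℂ) : ℂ := (w ^ 2 - 1) / (w ^ 2 + 1)

lemma one_ne (hz : z ∈ ball (0 : ℂ) 1) : 1 - z ≠ 0 := fun h => by
  rw [← sub_eq_zero.1 h] at hz
  simp at hz

lemma cay (hz : z ∈ ball (0 : ℂ) 1) : 0 < ((1 + z) / (1 - z)).re := by
  have h1 := normSq_pos.2 (one_ne hz)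
  have h2 : ‖z‖ ^ 2 < 1 := by
    rw [sq_lt_one_iff₀ (norm_nonneg _)]
    simpa using hz
  rw [Complex.sq_norm, normSq_apply] at h2
  rw [div_re, ← add_div]
  refine div_pos ?_ h1
  simp
  nlinarith

lemma sg_sq (z : ℂ) : sg z ^ 2 = (1 + z) / (1 - z) := cpow_ofNat_inv_pow _ 2

lemma sg_mem (hz : z ∈ ball (0 : ℂ) 1) : sg z ∈ Om := by
  have h1 := cay hz
  have h2 : 0 ≤ (sg z).re := by
    rw [sg, cpow_inv_two_re]
    exact Real.sqrt_nonneg _
  rw [← sg_sq, sq, mul_re] at h1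
  exact abs_lt_of_sq_lt_sq (by linarith) h2

lemma sg_diff : DifferentiableOn ℂ sg (ball 0 1) := fun z hz =>
  (DifferentiableAt.cpow_const (DifferentiableAt.div (by fun_prop) (by fun_prop) (one_ne hz))
    (Or.inl (cay hz))).differentiableWithinAt

lemma sq_pos (hw : w ∈ Om) : 0 < (w ^ 2).re := by
  rw [om_iff] at hw
  rw [sq, mul_re]
  nlinarith [mul_pos (sub_pos.2 hw.1) (sub_pos.2 hw.2)]

lemma sq_ne (hw : w ∈ Om) : w ^ 2 + 1 ≠ 0 := fun h => by
  have := congrArg re h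
  rw [add_re, one_re, zero_re] at this
  linarith [sq_pos hw]

lemma ps_mem (hw : w ∈ Om) : ps w ∈ ball (0 : ℂ) 1 := by
  rw [mem_ball_zero_iff, ps, norm_div, div_lt_one (norm_pos_iff.2 (sq_ne hw))]
  refine lt_of_pow_lt_pow_left₀ 2 (norm_nonneg _) ?_
  have := sq_pos hw
  generalize w ^ 2 = v at this
  simp only [Complex.sq_norm, normSq_apply]
  simp
  linarith

lemma ps_diff : DifferentiableOn ℂ ps Om := fun w hw =>
  (DifferentiableAt.div (c := fun w : ℂ => w ^ 2 - 1) (d := fun w : ℂ => w ^ 2 + 1) (x := w)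
    (by fun_prop) (by fun_prop) (sq_ne hw)).differentiableWithinAt

lemma ps_sg (hz : z ∈ ball (0 : ℂ) 1) : ps (sg z) = z := by
  have h1 := one_ne hz
  rw [ps, div_eq_iff (sq_ne (sg_mem hz)), sg_sq]
  field_simp
  ring

lemma sg_ps (hw : w ∈ Om) : sg (ps w) = w := by
  have h1 := sq_ne hw
  have h2 : (1 + ps w) / (1 - ps w) = w ^ 2 := by
    rw [div_eq_iff (one_ne (ps_mem hw)), ps]
    field_simp
    ring
  rw [sg, h2]
  exact sq_cpow_two_inv ((abs_nonneg _).trans_lt hw)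

lemma om_one (hw : w ∈ Om) : w + 1 ∈ Om := by simpa using om_add hw zero_le_one

lemma back {F : ℂ → ℂ} (h : Maj Om F) :
    DifferentiableOn ℂ ((ball 0 1).indicator fun z => F (sg z)) (ball 0 1) ∧
    (∀ z : ℂ, z ∉ ball (0 : ℂ) 1 → (ball 0 1).indicator (fun z => F (sg z)) z = 0) ∧
    Bd ((ball 0 1).indicator fun z => F (sg z)) := by
  obtain ⟨h1, P, h2, h3⟩ := h.comp sg_diff fun _ => sg_mem
  have d := h1.congr (f₁ := (ball 0 1).indicator fun z => F (sg z)) fun z hz => indicator_of_mem hz _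
  exact ⟨d, fun z hz => indicator_of_notMem hz _,
    hm2 ⟨d, P, h2, fun z hz => by rw [indicator_of_mem hz]; exact h3 z hz⟩⟩

lemma maj0 : Maj Om fun w => Complex.exp (-2 * w) :=
  ⟨by fun_prop, fun _ => 1, differentiableOn_const _, fun w hw => by
    have : 0 < w.re := (abs_nonneg _).trans_lt hw
    rw [one_re, sq_le_one_iff₀ (norm_nonneg _), Complex.norm_exp, Real.exp_le_one_iff]
    simp
    linarith⟩

end Pool.Agent.H.MP_48d627_an
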